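import Pool.Agent.Lib.MP_28303a_al.TW.Graph2
import Pool.Agent.Lib.MP_28303a_al.TW.H82.Fin

/-! # Module LNP (helper27): the boundary of `1 + N t` vanishes, `N` nilpotent over `A[s, s⁻¹]`,
`A` regular coherent -/

set_option autoImplicit false
set_option linter.unusedSectionVars false
set_option linter.unusedVariables false

namespace Pool.Agent.NegK.TW.H27

universe u v w

open Matrix

namespace LnpAux

section

variable {A : Type u} [Ring A]

/-- Constant matrices. -/
theorem degGe_const {ι κ : Type} (P : Matrix ι κ A) :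
    DegGe 0 (P.map (LaurentPolynomial.C : A →+* LaurentPolynomial A)) := by
  intro i j c hc
  show ((AddMonoidAlgebra.single (0 : ℤ) (P i j) : LaurentPolynomial A)).coeff c = 0
  rw [AddMonoidAlgebra.coeff_single, Finsupp.single_apply, if_neg]
  push_cast at hc
  omega

theorem ge_map_const {ι : Type} [Fintype ι] [DecidableEq ι] (P Q : Matrix ι ι A)
    (h : Q * P = 1) :
    (Ge A ι 0).map (rmul (P.map (LaurentPolynomial.C : A →+* LaurentPolynomial A))) =
      Ge A ι 0 := by
  refine le_antisymm ?_ ?_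
  · rintro _ ⟨y, hy, rfl⟩
    have := WR.H30.vecMul_mem (degGe_const (A := A) P) hy
    rw [Nat.cast_zero, sub_zero] at this
    exact this
  · intro y hy
    have h1 := WR.H30.vecMul_mem (degGe_const (A := A) Q) hy
    rw [Nat.cast_zero, sub_zero] at h1
    refine ⟨y ᵥ* Q.map (LaurentPolynomial.C : A →+* LaurentPolynomial A), h1, ?_⟩
    show (y ᵥ* Q.map (LaurentPolynomial.C : A →+* LaurentPolynomial A)) ᵥ*
      P.map (LaurentPolynomial.C : A →+* LaurentPolynomial A) = y
    rw [Matrix.vecMul_vecMul, ← Matrix.map_mul, h, Matrix.map_one _ (map_zero _) (map_one _),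
      Matrix.vecMul_one]

end

/-- The variant of `H82.fin_core` with a constant unit matrix. -/
theorem fin_core' {A : Type u} [Ring A] (hlat : LatStatement.{u}) {Λ J : Type} [Fintype Λ]
    [DecidableEq Λ] [Fintype J] [DecidableEq J] (Z : Matrix Λ J (LaurentPolynomial A))
    (α : Matrix J J (LaurentPolynomial A)) (hαu : IsUnit α) (a : J → Λ)
    (ha : ∀ j, Z (a j) = Pi.single j 1) (P : Matrix Λ Λ A) (hP : IsUnit P)
    (e1 : Z * α = P.map (LaurentPolynomial.C : A →+* LaurentPolynomial A) * Z)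
    (hcoh : ∀ m : ℕ, ∃ n, HasFPRes A n (LinearMap.range
      (Matrix.vecMulLinear (Matrix.of fun (x : Λ × Fin m) (y : J × Fin m) =>
        (Z x.1 y.1).coeff (-(m : ℤ) + (y.2 : ℕ) - 0 - (x.2 : ℕ)))))) : ind α = 0 := by
  obtain ⟨m, hm⟩ := H82.exists_degGe' Z
  set L : Submodule A (J → LaurentPolynomial A) := (Ge A Λ 0).map (rmul Z) with hL
  -- the lattice contains `Ge 0`
  have h1 : Ge A J 0 ≤ L := by
    intro y hy
    refine ⟨∑ j, Pi.single (a j) (y j), ?_, ?_⟩
    · refine Submodule.sum_mem _ fun j _ => ?_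
      intro l e he
      by_cases hl : l = a j
      · subst hl
        rw [Pi.single_eq_same]
        exact hy j e he
      · rw [Pi.single_eq_of_ne hl]
        rfl
    · show (∑ j, Pi.single (a j) (y j)) ᵥ* Z = y
      rw [Matrix.sum_vecMul]
      have h2 : ∀ j, (Pi.single (a j) (y j) : Λ → LaurentPolynomial A) ᵥ* Z =
          Pi.single j (y j) := by
        intro j
        rw [Matrix.single_vecMul]
        funext i
        show y j * Z (a j) i = _
        rw [ha j]
        by_cases hij : i = j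
        · subst hij
          rw [Pi.single_eq_same, Pi.single_eq_same, mul_one]
        · rw [Pi.single_eq_of_ne hij, Pi.single_eq_of_ne hij, mul_zero]
      simp only [h2]
      exact Finset.univ_sum_single y
  have h2 : L ≤ Ge A J (-m) := by
    rintro _ ⟨y, hy, rfl⟩
    have := WR.H30.vecMul_mem hm hy
    rwa [zero_sub] at this
  -- invariance
  have h3 : L.map (rmul α) = L := by
    obtain ⟨v, hv⟩ := hP
    have hQ : v.inv * P = 1 := by rw [← hv]; exact v.inv_mul
    rw [hL, ← Submodule.map_comp, ← H82.rmul_mul', e1, H82.rmul_mul', Submodule.map_comp,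
      ge_map_const P v.inv hQ]
  -- the finite matrix
  set W : Matrix (Λ × Fin m) (J × Fin m) A :=
    Matrix.of fun x y => (Z x.1 y.1).coeff (-(m : ℤ) + (y.2 : ℕ) - 0 - (x.2 : ℕ)) with hW
  have hrow : ∀ v : Λ × Fin m → A, WR.H30.prj (-(m : ℤ)) m ((WR.H30.emb 0 m v) ᵥ* Z) =
      v ᵥ* W := by
    intro v
    funext x
    rw [WR.H30.prj_emb_mul]
    rfl
  have h4 : L.map (WR.H30.prj (-(m : ℤ)) m) = LinearMap.range W.vecMulLinear := by
    refine le_antisymm ?_ ?_
    · rintro _ ⟨_, ⟨y, hy, rfl⟩, rfl⟩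
      refine ⟨WR.H30.prj 0 m y, ?_⟩
      show (WR.H30.prj 0 m y) ᵥ* W = WR.H30.prj (-(m : ℤ)) m (y ᵥ* Z)
      rw [← hrow, WR.H30.emb_prj]
      have h5 : y - WR.H30.cut (fun c => (0 : ℤ) ≤ c ∧ c < 0 + m) y ∈ Ge A Λ m := by
        intro i e he
        rw [Pi.sub_apply, AddMonoidAlgebra.coeff_sub, Finsupp.sub_apply, WR.H30.cut_coeff]
        by_cases h0 : (0 : ℤ) ≤ e
        · rw [if_pos ⟨h0, by omega⟩, sub_self]
        · rw [if_neg (fun h => h0 h.1), hy i e (not_le.1 h0), sub_zero]
      have h6 := WR.H30.vecMul_mem hm h5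
      rw [sub_self, Matrix.sub_vecMul] at h6
      have h7 : WR.H30.prj (-(m : ℤ)) m
          (y ᵥ* Z - WR.H30.cut (fun c => (0 : ℤ) ≤ c ∧ c < 0 + m) y ᵥ* Z) = 0 := by
        funext x
        rw [WR.H30.prj_apply]
        exact h6 x.1 _ (by have := x.2.2; omega)
      rw [map_sub, sub_eq_zero] at h7
      exact h7.symm
    · rintro _ ⟨v, rfl⟩
      refine ⟨(WR.H30.emb 0 m v) ᵥ* Z, ⟨WR.H30.emb 0 m v, ?_, rfl⟩, hrow v⟩
      intro i e he
      rw [WR.H30.emb_coeff]
      refine Finset.sum_eq_zero fun t _ => if_neg ?_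
      omega
  have hker : ∀ x ∈ L, WR.H30.prj (-(m : ℤ)) m x = 0 ↔ (Ge A J 0).mkQ x = 0 := by
    intro x hx
    rw [Submodule.mkQ_apply, Submodule.Quotient.mk_eq_zero]
    constructor
    · intro h i e he
      by_cases h0 : e < -(m : ℤ)
      · exact h2 hx i e h0
      · have h5 := congrFun h (i, ⟨(e + m).toNat, by omega⟩)
        rw [WR.H30.prj_apply] at h5
        have h6 : -(m : ℤ) + (((e + m).toNat : ℕ) : ℤ) = e := by omega
        simp only [h6] at h5
        exact h5
    · intro h
      funext y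
      rw [WR.H30.prj_apply]
      exact h y.1 _ (by have := y.2.2; omega)
  obtain ⟨e⟩ := H82.exists_map_equiv L (WR.H30.prj (-(m : ℤ)) m) (Ge A J 0).mkQ hker
  obtain ⟨n, hn⟩ := hcoh m
  rw [← h4] at hn
  exact hlat A J α hαu m n L h1 h2 h3 (hn.congr e)

/-- The variable of the polynomial ring is central. -/
theorem central {A : Type u} [Ring A] (y : LaurentPolynomial (Polynomial A)) :
    LaurentPolynomial.C (Polynomial.X : Polynomial A) * y =
      y * LaurentPolynomial.C (Polynomial.X : Polynomial A) := by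
  induction y using AddMonoidAlgebra.induction_linear with
  | zero => rw [mul_zero, zero_mul]
  | add x y hx hy => rw [mul_add, add_mul, hx, hy]
  | single n r =>
    show AddMonoidAlgebra.single (0 : ℤ) _ * AddMonoidAlgebra.single n r =
      AddMonoidAlgebra.single n r * AddMonoidAlgebra.single (0 : ℤ) _
    rw [AddMonoidAlgebra.single_mul_single, AddMonoidAlgebra.single_mul_single, zero_add,
      add_zero, Polynomial.X_mul]

theorem lmap_coeff {A B : Type u} [Ring A] [Ring B] (f : A →+* B) (y : LaurentPolynomial A)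
    (c : ℤ) : (lmap f y).coeff c = f (y.coeff c) := by
  induction y using AddMonoidAlgebra.induction_linear with
  | zero => rw [map_zero]; exact (map_zero f).symm
  | add x y hx hy =>
    rw [map_add, AddMonoidAlgebra.coeff_add, Finsupp.add_apply, hx, hy,
      AddMonoidAlgebra.coeff_add, Finsupp.add_apply, map_add]
  | single n r =>
    show (AddMonoidAlgebra.mapRingHom ℤ f (AddMonoidAlgebra.single n r)).coeff c = _
    rw [AddMonoidAlgebra.mapRingHom_single, AddMonoidAlgebra.coeff_single,
      AddMonoidAlgebra.coeff_single, Finsupp.single_apply, Finsupp.single_apply]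
    split_ifs with h
    · rfl
    · exact (map_zero f).symm

section shift

variable {B : Type u} [Ring B] {ι : Type} [Fintype ι] [DecidableEq ι]

/-- The shift with a coefficient `X`. -/
def sh (X : B) (d : ℕ) : Matrix (Fin (d + 1) × ι) (Fin (d + 1) × ι) B := fun x y =>
  if (y.1 : ℕ) = (x.1 : ℕ) + 1 ∧ x.2 = y.2 then X else 0

theorem sh_pow (X : B) (d k : ℕ) (x y : Fin (d + 1) × ι) (h : (sh X d ^ k) x y ≠ 0) :
    (y.1 : ℕ) = (x.1 : ℕ) + k := by
  induction k generalizing x y with
  | zero =>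
    rw [pow_zero] at h
    by_cases hxy : x = y
    · rw [hxy, add_zero]
    · exact absurd (Matrix.one_apply_ne hxy) h
  | succ k ih =>
    rw [pow_succ, Matrix.mul_apply] at h
    obtain ⟨z, -, hz⟩ := Finset.exists_ne_zero_of_sum_ne_zero h
    have h1 := ih x z (left_ne_zero_of_mul hz)
    have h2 : sh X d z y ≠ 0 := right_ne_zero_of_mul hz
    unfold sh at h2
    rw [ne_eq, ite_eq_right_iff, Classical.not_imp] at h2
    have := h2.1.1
    omega

theorem sh_nil (X : B) (d : ℕ) : IsNilpotent (sh (ι := ι) X d) := by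
  refine ⟨d + 1, ?_⟩
  ext1 x y
  by_contra h
  have h1 := sh_pow X d (d + 1) x y h
  have h2 := y.1.2
  omega

end shift

end LnpAux

open LnpAux in
theorem lnp (hmra : MraStatement.{u}) (hmrp : MrpStatement.{u}) (hmrc : MrcStatement.{u})
    (hlat : LatStatement.{u}) : LnpStatement.{u} := by
  intro A _ hA ι _ _ N hN
  obtain ⟨d, hd⟩ := hN
  have hd1 : N ^ (d + 1) = 0 := by rw [pow_succ, hd, zero_mul]
  -- notation
  let cX : LaurentPolynomial (Polynomial A) := LaurentPolynomial.C Polynomial.X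
  let φ : LaurentPolynomial A →+* LaurentPolynomial (Polynomial A) :=
    lmap (Polynomial.C : A →+* Polynomial A)
  let N' : Matrix ι ι (LaurentPolynomial (Polynomial A)) := N.map fun b => φ b * cX
  let Z : Matrix (Fin (d + 1) × ι) ι (LaurentPolynomial (Polynomial A)) := fun x j =>
    φ ((N ^ (x.1 : ℕ)) x.2 j)
  have hunit : IsUnit (1 + N') := by
    refine IsNilpotent.isUnit_one_add ?_
    have e1 : N' = φ.mapMatrix N * Matrix.diagonal (fun _ => cX) := by
      ext1 i j
      rw [Matrix.mul_diagonal]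
      rfl
    rw [e1]
    refine Commute.isNilpotent_mul_right ?_ (IsNilpotent.map ⟨d, hd⟩ _)
    ext1 i j
    rw [Matrix.mul_diagonal, Matrix.diagonal_mul]
    exact (central _).symm
  refine fin_core' hlat Z (1 + N') hunit (fun j => (0, j)) ?_
    (1 + sh (Polynomial.X : Polynomial A) d) (sh_nil _ _).isUnit_one_add ?_ ?_
  · intro j
    funext i
    show φ ((N ^ (0 : ℕ)) j i) = _
    rw [pow_zero]
    by_cases hij : i = j
    · subst hij
      rw [Matrix.one_apply_eq, map_one, Pi.single_eq_same]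
    · rw [Matrix.one_apply_ne (Ne.symm hij), map_zero, Pi.single_eq_of_ne hij]
  · rw [Matrix.mul_add, Matrix.mul_one, Matrix.map_add _ (map_add _),
      Matrix.map_one _ (map_zero _) (map_one _), Matrix.add_mul, Matrix.one_mul]
    congr 1
    ext1 x j
    have h1 : (Z * N') x j = φ ((N ^ ((x.1 : ℕ) + 1)) x.2 j) * cX := by
      rw [Matrix.mul_apply, pow_succ, Matrix.mul_apply, map_sum, Finset.sum_mul]
      refine Finset.sum_congr rfl fun l _ => ?_
      show φ _ * (φ (N l j) * cX) = _
      rw [map_mul, mul_assoc]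
    rw [h1, Matrix.mul_apply]
    by_cases hx : (x.1 : ℕ) + 1 < d + 1
    · rw [Finset.sum_eq_single (⟨⟨(x.1 : ℕ) + 1, hx⟩, x.2⟩ : Fin (d + 1) × ι)]
      · have h2 : sh (Polynomial.X : Polynomial A) d x
            (⟨⟨(x.1 : ℕ) + 1, hx⟩, x.2⟩ : Fin (d + 1) × ι) = Polynomial.X := if_pos ⟨rfl, rfl⟩
        rw [Matrix.map_apply, h2]
        exact (central _).symm
      · intro y _ hy
        have h2 : sh (Polynomial.X : Polynomial A) d x y = 0 := by
          refine if_neg ?_
          rintro ⟨e1, e2⟩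
          apply hy
          refine Prod.ext (Fin.ext e1) e2.symm
        rw [Matrix.map_apply, h2, map_zero, zero_mul]
      · intro h
        exact absurd (Finset.mem_univ _) h
    · have hx' : (x.1 : ℕ) = d := by have := x.1.2; omega
      rw [hx', hd1, Matrix.zero_apply, map_zero, zero_mul]
      symm
      refine Finset.sum_eq_zero fun y _ => ?_
      have h2 : sh (Polynomial.X : Polynomial A) d x y = 0 := by
        refine if_neg ?_
        rintro ⟨e1, -⟩
        have := y.1.2
        omega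
      rw [Matrix.map_apply, h2, map_zero, zero_mul]
  · intro m
    obtain ⟨n, hn⟩ := hmra A hA ((Fin (d + 1) × ι) × Fin m) (ι × Fin m)
      (Matrix.of fun x y => ((N ^ (x.1.1 : ℕ)) x.1.2 y.1).coeff
        (-(m : ℤ) + (y.2 : ℕ) - 0 - (x.2 : ℕ)))
    have h1 := hmrc (Polynomial A) n _ _ _ (hmrp A n _ _ _ hn)
    refine ⟨n, ?_⟩
    have h2 : (Matrix.of fun (x : (Fin (d + 1) × ι) × Fin m) (y : ι × Fin m) =>
        (Z x.1 y.1).coeff (-(m : ℤ) + (y.2 : ℕ) - 0 - (x.2 : ℕ))) =
        (Matrix.of fun (x : (Fin (d + 1) × ι) × Fin m) (y : ι × Fin m) =>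
          ((N ^ (x.1.1 : ℕ)) x.1.2 y.1).coeff (-(m : ℤ) + (y.2 : ℕ) - 0 - (x.2 : ℕ))).map
          (Polynomial.C : A →+* Polynomial A) := by
      ext1 x y
      exact lmap_coeff (Polynomial.C : A →+* Polynomial A) ((N ^ (x.1.1 : ℕ)) x.1.2 y.1) _
    rw [h2]
    exact h1

end Pool.Agent.NegK.TW.H27
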