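import Pool.Agent.Lib.MP_28303a_al.TW.Graph2
import Pool.Agent.Lib.MP_28303a_al.WR.H30.Rows

/-! # Module RCL (helper27): `K₀(A[t]) → K₀(A[t, t⁻¹])` is onto if `A[t]` is regular coherent -/

set_option autoImplicit false
set_option linter.unusedSectionVars false
set_option linter.unusedVariables false

namespace Pool.Agent.NegK.TW.H27

universe u v w

open Matrix

namespace RclAux

section

variable {A : Type u} [Ring A] {ι κ : Type} [Fintype ι] [Fintype κ]

/-- Clearing denominators. -/
theorem clear (x : ι → LaurentPolynomial A) : ∃ (M : ℕ) (x' : ι → Polynomial A),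
    (LaurentPolynomial.T (M : ℤ) : LaurentPolynomial A) • x = (posMap A) ∘ x' := by
  choose n f hf using fun i => LaurentPolynomial.exists_T_pow (x i)
  refine ⟨∑ i, n i, fun i => f i * Polynomial.X ^ (∑ j, n j - n i), funext fun i => ?_⟩
  have h1 : n i ≤ ∑ j, n j := Finset.single_le_sum (fun j _ => Nat.zero_le _) (Finset.mem_univ i)
  show LaurentPolynomial.T _ * x i = Polynomial.toLaurent _
  rw [map_mul, hf i, map_pow, Polynomial.toLaurent_X, LaurentPolynomial.T_pow, mul_assoc,
    ← LaurentPolynomial.T_add]
  have h2 : ((n i : ℕ) : ℤ) + ((∑ j, n j - n i : ℕ) : ℤ) * 1 = ((∑ j, n j : ℕ) : ℤ) := by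
    push_cast [Nat.cast_sub h1]
    ring
  rw [h2, LaurentPolynomial.T_mul]

theorem cancel {y : ι → LaurentPolynomial A} (M : ℕ)
    (h : (LaurentPolynomial.T (M : ℤ) : LaurentPolynomial A) • y = 0) : y = 0 := by
  have h1 := congrArg (fun v => (LaurentPolynomial.T (-(M : ℤ)) : LaurentPolynomial A) • v) h
  simp only [smul_zero, smul_smul, ← LaurentPolynomial.T_add, neg_add_cancel,
    LaurentPolynomial.T_zero, one_smul] at h1
  exact h1

theorem cancel' {y z : ι → LaurentPolynomial A} (M : ℕ)
    (h : (LaurentPolynomial.T (M : ℤ) : LaurentPolynomial A) • y =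
      (LaurentPolynomial.T (M : ℤ) : LaurentPolynomial A) • z) : y = z := by
  rw [← sub_eq_zero]
  refine cancel M ?_
  rw [smul_sub, h, sub_self]

theorem pos_inj {x y : ι → Polynomial A} (h : (posMap A) ∘ x = (posMap A) ∘ y) : x = y := by
  funext i
  exact Polynomial.toLaurent_injective (congrFun h i)

theorem map_vm (z : Matrix ι κ (Polynomial A)) (x : ι → Polynomial A) :
    ((posMap A) ∘ x) ᵥ* z.map (posMap A) = (posMap A) ∘ (x ᵥ* z) := by
  funext j
  exact (RingHom.map_vecMul (posMap A) z x j).symm

theorem ker_iff (z : Matrix ι κ (Polynomial A)) {x : ι → LaurentPolynomial A} {M : ℕ}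
    {x' : ι → Polynomial A}
    (hx : (LaurentPolynomial.T (M : ℤ) : LaurentPolynomial A) • x = (posMap A) ∘ x') :
    x ᵥ* z.map (posMap A) = 0 ↔ x' ᵥ* z = 0 := by
  constructor
  · intro h
    refine pos_inj ?_
    rw [← map_vm, ← hx, Matrix.smul_vecMul, h, smul_zero]
    funext j
    exact (map_zero _).symm
  · intro h
    refine cancel M ?_
    rw [← Matrix.smul_vecMul, hx, map_vm, h]
    funext j
    exact map_zero _

/-- The row space. -/
noncomputable abbrev rs (z : Matrix ι κ (Polynomial A)) :
    Submodule (LaurentPolynomial A) (κ → LaurentPolynomial A) :=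
  LinearMap.range (z.map (posMap A)).vecMulLinear

theorem mc_free [DecidableEq ι] : mc (LaurentPolynomial A) (ι → LaurentPolynomial A) ∈
    (K0.map (posMap A)).range := by
  obtain ⟨h, e⟩ := WR.H30.mc_of_maps (A := LaurentPolynomial A) (κ := ι)
    (M := ι → LaurentPolynomial A) 1 LinearMap.id LinearMap.id (fun x => rfl)
    (fun v => (Matrix.vecMul_one v).symm)
  rw [e]
  refine ⟨mcls (1 : Matrix ι ι (Polynomial A)) (one_mul 1), ?_⟩
  rw [mcls_map]
  exact mcls_congr _ (Matrix.map_one _ (map_zero _) (map_one _))

theorem main (n : ℕ) : ∀ {ι κ : Type} [Fintype ι] [Fintype κ] (z : Matrix ι κ (Polynomial A)),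
    MRes n z → Module.Projective (LaurentPolynomial A) (rs z) →
    mc (LaurentPolynomial A) (rs z) ∈ (K0.map (posMap A)).range := by
  induction n with
  | zero =>
    intro ι κ _ _ z hz hp
    classical
    obtain ⟨e, he, hk⟩ := hz
    let g : (ι → LaurentPolynomial A) →ₗ[LaurentPolynomial A] rs z :=
      (z.map (posMap A)).vecMulLinear.rangeRestrict
    have hg : Function.Surjective g := LinearMap.surjective_rangeRestrict _
    have h1 := mc_ker (A := LaurentPolynomial A) inferInstance inferInstance hp g hg
    -- the kernel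
    have hk' : ∀ x : ι → LaurentPolynomial A, x ∈ LinearMap.ker g ↔
        x ᵥ* e.map (posMap A) = x := by
      intro x
      have e0 : x ∈ LinearMap.ker g ↔ x ᵥ* z.map (posMap A) = 0 := by
        rw [LinearMap.mem_ker]
        constructor
        · intro h
          exact congrArg Subtype.val h
        · intro h
          exact Subtype.ext h
      obtain ⟨M, x', hx⟩ := clear x
      rw [e0, ker_iff z hx, hk]
      constructor
      · intro h
        refine cancel' M ?_
        rw [← Matrix.smul_vecMul, hx, map_vm, h]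
      · intro h
        refine pos_inj ?_
        rw [← map_vm, ← hx, Matrix.smul_vecMul, h]
    have he' : e.map (posMap A) * e.map (posMap A) = e.map (posMap A) := by
      rw [← Matrix.map_mul, he]
    obtain ⟨h2, h3⟩ := WR.H30.mc_of_maps (A := LaurentPolynomial A) (κ := ι)
      (M := LinearMap.ker g) (e.map (posMap A)) (LinearMap.ker g).subtype
      ((e.map (posMap A)).vecMulLinear.codRestrict (LinearMap.ker g) (fun v => by
        rw [hk']
        show (v ᵥ* _) ᵥ* _ = v ᵥ* _
        rw [Matrix.vecMul_vecMul, he'])) (fun x => Subtype.ext ((hk' _).1 x.2)) (fun v => rfl)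
    have h4 : mc (LaurentPolynomial A) (LinearMap.ker g) ∈ (K0.map (posMap A)).range := by
      rw [h3]
      exact ⟨mcls e he, mcls_map he _⟩
    have h5 := mc_free (A := A) (ι := ι)
    have h6 : mc (LaurentPolynomial A) (rs z) =
        mc (LaurentPolynomial A) (ι → LaurentPolynomial A) -
          mc (LaurentPolynomial A) (LinearMap.ker g) := by rw [h1]; abel
    rw [h6]
    exact sub_mem h5 h4
  | succ n ih =>
    intro ι κ _ _ z hz hp
    classical
    obtain ⟨μ, _, y, hk, hy⟩ := hz
    let g : (ι → LaurentPolynomial A) →ₗ[LaurentPolynomial A] rs z :=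
      (z.map (posMap A)).vecMulLinear.rangeRestrict
    have hg : Function.Surjective g := LinearMap.surjective_rangeRestrict _
    have h1 := mc_ker (A := LaurentPolynomial A) inferInstance inferInstance hp g hg
    have hk' : LinearMap.ker g = rs y := by
      ext x
      have e0 : x ∈ LinearMap.ker g ↔ x ᵥ* z.map (posMap A) = 0 := by
        rw [LinearMap.mem_ker]
        constructor
        · intro h
          exact congrArg Subtype.val h
        · intro h
          exact Subtype.ext h
      rw [e0]
      constructor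
      · intro h
        obtain ⟨M, x', hx⟩ := clear x
        obtain ⟨w, hw⟩ := (hk x').1 ((ker_iff z hx).1 h)
        refine ⟨(LaurentPolynomial.T (-(M : ℤ)) : LaurentPolynomial A) • ((posMap A) ∘ w), ?_⟩
        show _ ᵥ* _ = x
        rw [Matrix.smul_vecMul, map_vm, hw, ← hx, smul_smul, ← LaurentPolynomial.T_add,
          neg_add_cancel, LaurentPolynomial.T_zero, one_smul]
      · rintro ⟨w, rfl⟩
        obtain ⟨M, w', hw⟩ := clear w
        have h2 : (LaurentPolynomial.T (M : ℤ) : LaurentPolynomial A) •
            (w ᵥ* y.map (posMap A)) = (posMap A) ∘ (w' ᵥ* y) := by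
          rw [← Matrix.smul_vecMul, hw, map_vm]
        exact (ker_iff z h2).2 ((hk _).2 ⟨w', rfl⟩)
    have h2 : Module.Projective (LaurentPolynomial A) (LinearMap.ker g) :=
      ker_projective inferInstance hp g hg
    rw [hk'] at h1 h2
    have h4 := ih y hy h2
    have h6 : mc (LaurentPolynomial A) (rs z) =
        mc (LaurentPolynomial A) (ι → LaurentPolynomial A) - mc (LaurentPolynomial A) (rs y) := by
      rw [h1]; abel
    rw [h6]
    exact sub_mem mc_free h4

end

end RclAux

open RclAux in
theorem rcl (hmra : MraStatement.{u}) : RclStatement.{u} := by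
  intro A _ hA z
  refine H50.K0_eq_top (H := (K0.map (posMap A)).range) (fun p => ?_) z
  -- `T ^ m * p` is a matrix over `A[t]`
  obtain ⟨M, e', he'⟩ := clear (fun ij : Fin p.n × Fin p.n => p.e ij.1 ij.2)
  let w : Matrix (Fin p.n) (Fin p.n) (Polynomial A) := fun i j => e' (i, j)
  have hw : w.map (posMap A) = (LaurentPolynomial.T (M : ℤ) : LaurentPolynomial A) • p.e := by
    ext1 i j
    exact (congrFun he' (i, j)).symm
  obtain ⟨n, hn⟩ := hmra (Polynomial A) hA (Fin p.n) (Fin p.n) w
  have hr : rs w = LinearMap.range (Matrix.toLinearMapRight' p.e) := by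
    have key : ∀ (v : Fin p.n → LaurentPolynomial A) (c : ℤ),
        v ᵥ* ((LaurentPolynomial.T c : LaurentPolynomial A) • p.e) =
          ((LaurentPolynomial.T c : LaurentPolynomial A) • v) ᵥ* p.e := by
      intro v c
      funext j
      simp only [Matrix.vecMul, dotProduct, Matrix.smul_apply, Pi.smul_apply, smul_eq_mul]
      refine Finset.sum_congr rfl fun i _ => ?_
      rw [← mul_assoc, ← LaurentPolynomial.T_mul]
    ext x
    constructor
    · rintro ⟨v, rfl⟩
      refine ⟨(LaurentPolynomial.T (M : ℤ) : LaurentPolynomial A) • v, ?_⟩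
      rw [Matrix.toLinearMapRight'_apply]
      show _ = v ᵥ* w.map (posMap A)
      rw [hw, key]
    · rintro ⟨v, rfl⟩
      refine ⟨(LaurentPolynomial.T (-(M : ℤ)) : LaurentPolynomial A) • v, ?_⟩
      rw [Matrix.toLinearMapRight'_apply]
      show _ ᵥ* w.map (posMap A) = _
      rw [hw, key, smul_smul, ← LaurentPolynomial.T_add, add_neg_cancel, LaurentPolynomial.T_zero,
        one_smul]
  have hrep := H50.rep_range p
  rw [← hr] at hrep
  have h1 := main n w hn hrep.projective
  rwa [mc_of_rep hrep] at h1

end Pool.Agent.NegK.TW.H27
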